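import Mathlib

/-!
# Statements for project SY (symmetric arithmetic circuits for matrix multiplication)
-/

namespace Pool.Agent.N580.SY

open Finset

/-- labels of the nodes of a circuit -/
inductive Label (V F : Type) : Type
  | var (v : V)
  | const (c : F)
  | add
  | mul

/-- the label with renamed variable -/
def Label.ren {V F : Type} (e : V → V) : Label V F → Label V F
  | .var v => .var (e v)
  | .const c => .const c
  | .add => .add
  | .mul => .mul

/-- A circuit with the set `N` of nodes: sum gates form a linear combination of any nodes, with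
weights `wt n n'`; product gates multiply the two nodes `lft n` and `rgt n`; acyclic. -/
structure Circuit (V F N : Type) [Field F] where
  lab : N → Label V F
  wt : N → N → F
  lft : N → N
  rgt : N → N
  rank : N → ℕ
  rank_add : ∀ n n', lab n = .add → wt n n' ≠ 0 → rank n' < rank n
  rank_mul : ∀ n, lab n = .mul → rank (lft n) < rank n ∧ rank (rgt n) < rank n

/-- `val` is the family of polynomials computed by the nodes. -/
def IsValue {V F N : Type} [Field F] [Fintype N] (S : Circuit V F N)
    (val : N → MvPolynomial V F) : Prop :=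
  (∀ n v, S.lab n = .var v → val n = MvPolynomial.X v) ∧
  (∀ n c, S.lab n = .const c → val n = MvPolynomial.C c) ∧
  (∀ n, S.lab n = .add → val n = ∑ n', MvPolynomial.C (S.wt n n') * val n') ∧
  (∀ n, S.lab n = .mul → val n = val (S.lft n) * val (S.rgt n))

/-- `π` is an automorphism of the circuit which extends the permutation `e` of the variables. -/
def IsAut {V F N : Type} [Field F] (S : Circuit V F N) (e : V → V) (π : Equiv.Perm N) : Prop :=
  (∀ n, S.lab (π n) = (S.lab n).ren e) ∧
  (∀ n n', S.lab n = .add → S.wt (π n) (π n') = S.wt n n') ∧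
  (∀ n, S.lab n = .mul → (S.lft (π n) = π (S.lft n) ∧ S.rgt (π n) = π (S.rgt n)) ∨
    (S.lft (π n) = π (S.rgt n) ∧ S.rgt (π n) = π (S.lft n)))

/-- constants `c`, gradients `L` and mixed second derivatives `H` at `0` of the nodes -/
def IsJet {V F N : Type} [Field F] [Fintype N] [DecidableEq V] (S : Circuit V F N)
    (P : V → V → Prop) (c : N → F) (L : N → V → F) (H : N → V → V → F) : Prop :=
  (∀ n v, S.lab n = .var v → c n = 0 ∧ (∀ w, L n w = if w = v then 1 else 0) ∧
    ∀ w w', P w w' → H n w w' = 0) ∧
  (∀ n a, S.lab n = .const a → c n = a ∧ (∀ w, L n w = 0) ∧ ∀ w w', P w w' → H n w w' = 0) ∧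
  (∀ n, S.lab n = .add → c n = ∑ n', S.wt n n' * c n' ∧ (∀ w, L n w = ∑ n', S.wt n n' * L n' w) ∧
    ∀ w w', P w w' → H n w w' = ∑ n', S.wt n n' * H n' w w') ∧
  (∀ n, S.lab n = .mul → c n = c (S.lft n) * c (S.rgt n) ∧
    (∀ w, L n w = c (S.lft n) * L (S.rgt n) w + c (S.rgt n) * L (S.lft n) w) ∧
    ∀ w w', P w w' → H n w w' = c (S.lft n) * H (S.rgt n) w w' + c (S.rgt n) * H (S.lft n) w w' +
      (L (S.lft n) w * L (S.rgt n) w' + L (S.rgt n) w * L (S.lft n) w'))

/-- Leaf SY/JET: the jets of the polynomials of a circuit. -/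
def JET : Prop := ∀ (V F N : Type) [Field F] [Fintype N] [DecidableEq V] (S : Circuit V F N)
  (val : N → MvPolynomial V F), IsValue S val →
  IsJet S (fun w w' => w ≠ w') (fun n => MvPolynomial.constantCoeff (val n))
    (fun n w => MvPolynomial.constantCoeff (MvPolynomial.pderiv w (val n)))
    (fun n w w' => MvPolynomial.constantCoeff
      (MvPolynomial.pderiv w (MvPolynomial.pderiv w' (val n))))

/-- Leaf SY/EQV: automorphisms preserve constants and gradients. -/
def EQV : Prop := ∀ (V F N : Type) [Field F] [Fintype N] [DecidableEq V] (S : Circuit V F N)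
  (P : V → V → Prop) (c : N → F) (L : N → V → F) (H : N → V → V → F), IsJet S P c L H →
  ∀ (e : V → V) (π : Equiv.Perm N), Function.Injective e → IsAut S e π →
  (∀ n, c (π n) = c n) ∧ ∀ n w, L (π n) (e w) = L n w

/-- Leaf SY/MAT: the mixed second derivatives are combinations of the products of gradients at the
product gates, with coefficients preserved by automorphisms. -/
def MAT : Prop := ∀ (V F N : Type) [Field F] [Fintype N] [DecidableEq V] (S : Circuit V F N)
  (P : V → V → Prop) (c : N → F) (L : N → V → F) (H : N → V → V → F), IsJet S P c L H →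
  ∃ D : N → N → F,
    (∀ n w w', P w w' → H n w w' = ∑ t, D n t *
      (L (S.lft t) w * L (S.rgt t) w' + L (S.rgt t) w * L (S.lft t) w')) ∧
    (∀ n t, S.lab t ≠ .mul → D n t = 0) ∧
    ∀ (e : V → V) (π : Equiv.Perm N), IsAut S e π → (∀ n, c (π n) = c n) →
      ∀ n t, D (π n) (π t) = D n t

end Pool.Agent.N580.SY
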