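import Pool.Agent.N580.SY.Core

/-!
# Symmetric algorithms for matrix multiplication: permutations, in coordinates
-/

set_option autoImplicit false

namespace Pool.Agent.N580.SY

open Finset Polynomial

/-- linear form with the given coefficients, values in `F[X]` -/
noncomputable def form {F : Type} [Field F] {u m : ℕ} (a : Fin u → Fin m → F) :
    Matrix (Fin u) (Fin m) F →ₗ[F] F[X] :=
  { toFun := fun x => C (∑ i, ∑ j, a i j * x i j)
    map_add' := fun x y => by
      rw [← C_add, ← Finset.sum_add_distrib]
      congr 1
      refine Finset.sum_congr rfl fun i _ => ?_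
      rw [← Finset.sum_add_distrib]
      exact Finset.sum_congr rfl fun j _ => by rw [Matrix.add_apply]; ring
    map_smul' := fun c x => by
      rw [RingHom.id_apply, smul_eq_C_mul, ← C_mul, Finset.mul_sum]
      congr 1
      refine Finset.sum_congr rfl fun i _ => ?_
      rw [Finset.mul_sum]
      exact Finset.sum_congr rfl fun j _ => by rw [Matrix.smul_apply, smul_eq_mul]; ring }

theorem form_apply {F : Type} [Field F] {u m : ℕ} (a : Fin u → Fin m → F)
    (x : Matrix (Fin u) (Fin m) F) : form a x = C (∑ i, ∑ j, a i j * x i j) := rfl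

/-- permutation matrix -/
def pm {F : Type} [Field F] {u : ℕ} (π : Equiv.Perm (Fin u)) : Matrix (Fin u) (Fin u) F :=
  Matrix.of fun i j => if i = π j then 1 else 0

theorem pm_mul_apply {F : Type} [Field F] {u m : ℕ} (π : Equiv.Perm (Fin u))
    (x : Matrix (Fin u) (Fin m) F) (i : Fin u) (j : Fin m) :
    ((pm π : Matrix (Fin u) (Fin u) F) * x) (π i) j = x i j := by
  rw [Matrix.mul_apply, Finset.sum_eq_single i]
  · simp [pm]
  · intro l _ hl
    simp [pm, Ne.symm hl]
  · intro h
    exact absurd (Finset.mem_univ _) h

theorem mul_pm_apply {F : Type} [Field F] {u n : ℕ} (π : Equiv.Perm (Fin u))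
    (z : Matrix (Fin n) (Fin u) F) (i : Fin u) (k : Fin n) :
    (z * (pm π⁻¹ : Matrix (Fin u) (Fin u) F)) k (π i) = z k i := by
  rw [Matrix.mul_apply, Finset.sum_eq_single i]
  · simp [pm]
  · intro l _ hl
    have : l ≠ π⁻¹ (π i) := by simpa using hl
    simp [pm, hl]
  · intro h
    exact absurd (Finset.mem_univ _) h

/-- three sums -/
theorem three {F P Q R : Type} [CommRing F] [Fintype P] [Fintype Q] [Fintype R] (A : P → F)
    (B : Q → F) (D : R → F) :
    (∑ p, A p) * (∑ q, B q) * (∑ r, D r) = ∑ p, ∑ q, ∑ r, A p * B q * D r := by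
  rw [Finset.sum_mul_sum, Finset.sum_mul]
  refine Finset.sum_congr rfl fun p _ => ?_
  rw [Finset.sum_mul]
  refine Finset.sum_congr rfl fun q _ => ?_
  rw [Finset.mul_sum]

/-- the coordinate form of the one-sided theorem, for permutations -/
theorem core_perm {F : Type} [Field F] {Γ : Type} [Group Γ] [Finite Γ] {s : ℕ}
    (hs : ∀ H : Subgroup Γ, H ≠ ⊤ → s ≤ H.index) (hperf : commutator Γ = ⊤) {u m n : ℕ}
    (π : Γ →* Equiv.Perm (Fin u)) (hne : ∃ g, π g ≠ 1) {Ω : Type} [Fintype Ω]
    (a : Ω → Fin u → Fin m → F) (b : Ω → Fin m → Fin n → F) (c : Ω → Fin n → Fin u → F)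
    (hT : ∀ i j j' k k' i', ∑ t, a t i j * b t j' k * c t k' i' =
      if i = i' ∧ j = j' ∧ k = k' then 1 else 0)
    (hinv : ∀ g, ∃ σ : Equiv.Perm Ω, ∀ t,
      (∀ i j, a (σ t) (π g i) j = a t i j) ∧ (∀ j k, b (σ t) j k = b t j k) ∧
      ∀ k i, c (σ t) k (π g i) = c t k i) :
    s * (m * n) ≤ Fintype.card Ω := by
  classical
  refine core (F := F) hs hperf (fun g => pm (π g)) ?_ ?_ ?_ (fun t => form (a t))
    (fun t => form (b t)) (fun t => form (c t)) 0 ?_ ?_
  · ext i j
    simp [pm, Matrix.one_apply]
  · intro g h
    ext i j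
    rw [Matrix.mul_apply, Finset.sum_eq_single (π h j)]
    · simp [pm]
    · intro l _ hl
      simp [pm, hl]
    · intro h
      exact absurd (Finset.mem_univ _) h
  · obtain ⟨g, hg⟩ := hne
    refine ⟨g, fun h => hg ?_⟩
    ext j
    have h1 : (pm (π g) : Matrix (Fin u) (Fin u) F) j j = 1 := by rw [h, Matrix.one_apply_eq]
    simp only [pm, Matrix.of_apply] at h1
    by_cases h2 : j = π g j
    · rw [← h2]
      rfl
    · rw [if_neg h2] at h1
      exact absurd h1 zero_ne_one
  · intro x y z
    have h1 : ∑ t, form (a t) x * form (b t) y * form (c t) z = C (Matrix.trace (x * y * z)) := by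
      simp only [form_apply, ← C_mul, ← map_sum]
      congr 1
      have h2 : ∀ t, (∑ i, ∑ j, a t i j * x i j) * (∑ j, ∑ k, b t j k * y j k) *
          (∑ k, ∑ i, c t k i * z k i) =
          ∑ i, ∑ j, ∑ j', ∑ k, ∑ k', ∑ i', (a t i j * b t j' k * c t k' i') *
            (x i j * y j' k * z k' i') := by
        intro t
        have e := three (fun p : Fin u × Fin m => a t p.1 p.2 * x p.1 p.2)
          (fun q : Fin m × Fin n => b t q.1 q.2 * y q.1 q.2)
          (fun r : Fin n × Fin u => c t r.1 r.2 * z r.1 r.2)
        simp only [Fintype.sum_prod_type] at e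
        rw [e]
        refine Finset.sum_congr rfl fun i _ => Finset.sum_congr rfl fun j _ =>
          Finset.sum_congr rfl fun j' _ => Finset.sum_congr rfl fun k _ =>
          Finset.sum_congr rfl fun k' _ => Finset.sum_congr rfl fun i' _ => by ring
      rw [Finset.sum_congr rfl fun t _ => h2 t]
      have h3 : ∑ t, ∑ i, ∑ j, ∑ j', ∑ k, ∑ k', ∑ i', (a t i j * b t j' k * c t k' i') *
            (x i j * y j' k * z k' i') =
          ∑ i, ∑ j, ∑ j', ∑ k, ∑ k', ∑ i', (∑ t, a t i j * b t j' k * c t k' i') *
            (x i j * y j' k * z k' i') := by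
        rw [Finset.sum_comm]
        refine Finset.sum_congr rfl fun i _ => ?_
        rw [Finset.sum_comm]
        refine Finset.sum_congr rfl fun j _ => ?_
        rw [Finset.sum_comm]
        refine Finset.sum_congr rfl fun j' _ => ?_
        rw [Finset.sum_comm]
        refine Finset.sum_congr rfl fun k _ => ?_
        rw [Finset.sum_comm]
        refine Finset.sum_congr rfl fun k' _ => ?_
        rw [Finset.sum_comm]
        refine Finset.sum_congr rfl fun i' _ => ?_
        rw [Finset.sum_mul]
      rw [h3]
      have h4 : ∀ i j j' k k' i', (∑ t, a t i j * b t j' k * c t k' i') *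
            (x i j * y j' k * z k' i') =
          if j' = j then (if k' = k then (if i' = i then x i j * y j k * z k i else 0)
            else 0) else 0 := by
        intro i j j' k k' i'
        rw [hT]
        by_cases e1 : j' = j
        · subst e1
          by_cases e2 : k' = k
          · subst e2
            by_cases e3 : i' = i
            · subst e3
              simp
            · rw [if_neg (fun h => e3 h.1.symm), if_pos rfl, if_pos rfl, if_neg e3, zero_mul]
          · rw [if_neg (fun h => e2 h.2.2.symm), if_pos rfl, if_neg e2, zero_mul]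
        · rw [if_neg (fun h => e1 h.2.1.symm), if_neg e1, zero_mul]
      simp only [h4]
      have h5 : ∑ i, ∑ j, ∑ j', ∑ k, ∑ k', ∑ i', (if j' = j then (if k' = k then
          (if i' = i then x i j * y j k * z k i else 0) else 0) else 0) =
          ∑ i, ∑ j, ∑ k, x i j * y j k * z k i := by
        refine Finset.sum_congr rfl fun i _ => Finset.sum_congr rfl fun j _ => ?_
        rw [Finset.sum_eq_single j]
        · refine Finset.sum_congr rfl fun k _ => ?_
          rw [Finset.sum_eq_single k]
          · rw [Finset.sum_eq_single i]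
            · simp
            · intro i' _ hi'
              simp [hi']
            · intro h
              exact absurd (Finset.mem_univ _) h
          · intro k' _ hk'
            simp [hk']
          · intro h
            exact absurd (Finset.mem_univ _) h
        · intro j' _ hj'
          simp [hj']
        · intro h
          exact absurd (Finset.mem_univ _) h
      rw [h5, Matrix.trace]
      refine Finset.sum_congr rfl fun i _ => ?_
      rw [Matrix.diag_apply, Matrix.mul_apply, Finset.sum_comm]
      refine Finset.sum_congr rfl fun k _ => ?_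
      rw [Matrix.mul_apply, Finset.sum_mul]
    rw [h1, pow_zero, mul_one, sub_self]
    exact dvd_zero _
  · intro g
    obtain ⟨σ, hσ⟩ := hinv g
    refine ⟨σ, fun t x y z => ?_⟩
    obtain ⟨ha, hb, hc⟩ := hσ t
    have e1 : form (a (σ t)) ((pm (π g) : Matrix (Fin u) (Fin u) F) * x) = form (a t) x := by
      rw [form_apply, form_apply]
      congr 1
      rw [← Equiv.sum_comp (π g)]
      refine Finset.sum_congr rfl fun i _ => Finset.sum_congr rfl fun j _ => ?_
      rw [ha, pm_mul_apply]
    have e2 : form (b (σ t)) y = form (b t) y := by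
      rw [form_apply, form_apply]
      congr 1
      refine Finset.sum_congr rfl fun i _ => Finset.sum_congr rfl fun j _ => ?_
      rw [hb]
    have e3 : form (c (σ t)) (z * (pm (π g⁻¹) : Matrix (Fin u) (Fin u) F)) = form (c t) z := by
      rw [form_apply, form_apply]
      congr 1
      refine Finset.sum_congr rfl fun k _ => ?_
      rw [← Equiv.sum_comp (π g)]
      refine Finset.sum_congr rfl fun i _ => ?_
      rw [hc, map_inv, mul_pm_apply]
    rw [e1, e2, e3]

end Pool.Agent.N580.SY
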