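import Pool.Agent.N580.SY.Stm
import Pool.Agent.N580.SY.Perm

/-!
# Symmetric circuits for matrix multiplication: assembly
-/

set_option autoImplicit false

namespace Pool.Agent.N580.SY

open Finset

/-- index sets and variables -/
abbrev Ixs (u m : ℕ) : Type := Fin u ⊕ Fin m

abbrev Vars (u₁ m₁ u₂ m₂ u₃ m₃ : ℕ) : Type :=
  (Ixs u₁ m₁ × Ixs u₂ m₂) ⊕ (Ixs u₂ m₂ × Ixs u₃ m₃)

/-- permutation of the index set, trivial on the second part -/
def act {u m : ℕ} (π : Equiv.Perm (Fin u)) : Ixs u m → Ixs u m := Sum.map π id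

/-- permutation of the variables -/
def actV {u₁ m₁ u₂ m₂ u₃ m₃ : ℕ} (π₁ : Equiv.Perm (Fin u₁)) (π₂ : Equiv.Perm (Fin u₂))
    (π₃ : Equiv.Perm (Fin u₃)) : Vars u₁ m₁ u₂ m₂ u₃ m₃ → Vars u₁ m₁ u₂ m₂ u₃ m₃ :=
  Sum.map (Prod.map (act π₁) (act π₂)) (Prod.map (act π₂) (act π₃))

theorem act_inj {u m : ℕ} (π : Equiv.Perm (Fin u)) : Function.Injective (act (m := m) π) :=
  Sum.map_injective.2 ⟨π.injective, Function.injective_id⟩

theorem actV_inj {u₁ m₁ u₂ m₂ u₃ m₃ : ℕ} (π₁ : Equiv.Perm (Fin u₁)) (π₂ : Equiv.Perm (Fin u₂))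
    (π₃ : Equiv.Perm (Fin u₃)) :
    Function.Injective (actV (m₁ := m₁) (m₂ := m₂) (m₃ := m₃) π₁ π₂ π₃) :=
  Sum.map_injective.2 ⟨Function.Injective.prodMap (act_inj π₁) (act_inj π₂),
    Function.Injective.prodMap (act_inj π₂) (act_inj π₃)⟩

theorem circuit_bound (hJ : JET) (hE : EQV) (hM : MAT) {F : Type} [Field F] {Γ : Type} [Group Γ]
    [Finite Γ] {s : ℕ}
    (hs : ∀ H : Subgroup Γ, H ≠ ⊤ → s ≤ H.index) (hperf : commutator Γ = ⊤)
    {u₁ m₁ u₂ m₂ u₃ m₃ : ℕ} (π₁ : Γ →* Equiv.Perm (Fin u₁)) (π₂ : Γ →* Equiv.Perm (Fin u₂))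
    (π₃ : Γ →* Equiv.Perm (Fin u₃)) (hne : ∃ g, π₁ g ≠ 1) {N : Type} [Fintype N]
    (S : Circuit (Vars u₁ m₁ u₂ m₂ u₃ m₃) F N) (val : N → MvPolynomial (Vars u₁ m₁ u₂ m₂ u₃ m₃) F)
    (hval : IsValue S val) (out : Ixs u₁ m₁ → Ixs u₃ m₃ → N)
    (hout : ∀ a c, val (out a c) =
      ∑ b, MvPolynomial.X (Sum.inl (a, b)) * MvPolynomial.X (Sum.inr (b, c)))
    (hsym : ∀ g : Γ, ∃ σ : Equiv.Perm N, IsAut S (actV (π₁ g) (π₂ g) (π₃ g)) σ ∧
      ∀ a c, σ (out a c) = out (act (π₁ g) a) (act (π₃ g) c))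
    (M : ℕ) (hMul : Nat.card {n // S.lab n = Label.mul} = M) :
    s * (m₂ * m₃) ≤ 2 * M := by
  classical
  have hjet := hJ _ F N S val hval
  set c : N → F := fun n => MvPolynomial.constantCoeff (val n) with hc
  set L : N → Vars u₁ m₁ u₂ m₂ u₃ m₃ → F := fun n w =>
    MvPolynomial.constantCoeff (MvPolynomial.pderiv w (val n)) with hL
  set H : N → Vars u₁ m₁ u₂ m₂ u₃ m₃ → Vars u₁ m₁ u₂ m₂ u₃ m₃ → F := fun n w w' =>
    MvPolynomial.constantCoeff (MvPolynomial.pderiv w (MvPolynomial.pderiv w' (val n))) with hH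
  obtain ⟨D, hD, hD0, hDe⟩ := hM _ F N S _ c L H hjet
  -- second derivatives of the outputs
  have hHout : ∀ (a a' : Ixs u₁ m₁) (b b' : Ixs u₂ m₂) (c₀ c' : Ixs u₃ m₃),
      H (out a' c') (Sum.inl (a, b)) (Sum.inr (b', c₀)) =
        if a = a' ∧ b = b' ∧ c₀ = c' then 1 else 0 := by
    intro a a' b b' c₀ c'
    change MvPolynomial.constantCoeff (MvPolynomial.pderiv (Sum.inl (a, b))
      (MvPolynomial.pderiv (Sum.inr (b', c₀)) (val (out a' c')))) = _
    rw [hout]
    have h1 : ∀ b₁ : Ixs u₂ m₂, MvPolynomial.constantCoeff (MvPolynomial.pderiv (Sum.inl (a, b))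
        (MvPolynomial.pderiv (Sum.inr (b', c₀))
          ((MvPolynomial.X (Sum.inl (a', b₁)) * MvPolynomial.X (Sum.inr (b₁, c')) :
            MvPolynomial (Vars u₁ m₁ u₂ m₂ u₃ m₃) F)))) =
        if b₁ = b' then (if a = a' ∧ b = b' ∧ c₀ = c' then 1 else 0) else 0 := by
      intro b₁
      rw [Derivation.leibniz, MvPolynomial.pderiv_X, MvPolynomial.pderiv_X]
      have e1 : (Pi.single (Sum.inr (b', c₀) : Vars u₁ m₁ u₂ m₂ u₃ m₃)
          (1 : MvPolynomial (Vars u₁ m₁ u₂ m₂ u₃ m₃) F) : _ → _) (Sum.inl (a', b₁)) = 0 := by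
        rw [Pi.single_apply, if_neg (by simp)]
      rw [e1, smul_zero, add_zero, smul_eq_mul, Pi.single_apply]
      by_cases h2 : (Sum.inr (b₁, c') : Vars u₁ m₁ u₂ m₂ u₃ m₃) = Sum.inr (b', c₀)
      · rw [if_pos h2, mul_one, MvPolynomial.pderiv_X, Pi.single_apply]
        have h3 := Sum.inr.inj h2
        have h4 : b₁ = b' := congrArg Prod.fst h3
        have h5 : c' = c₀ := congrArg Prod.snd h3
        subst h4
        subst h5
        rw [if_pos rfl]
        by_cases h6 : a = a' ∧ b = b₁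
        · obtain ⟨rfl, rfl⟩ := h6
          simp
        · have h7 : ¬ ((Sum.inl (a', b₁) : Vars u₁ m₁ u₂ m₂ u₃ m₃) = Sum.inl (a, b)) := by
            intro h8
            have h9 := Sum.inl.inj h8
            exact h6 ⟨(congrArg Prod.fst h9).symm, (congrArg Prod.snd h9).symm⟩
          rw [if_neg h7, map_zero, if_neg (fun h => h6 ⟨h.1, h.2.1⟩)]
      · rw [if_neg h2, mul_zero, map_zero, map_zero]
        by_cases h3 : b₁ = b'
        · subst h3
          rw [if_pos rfl, if_neg]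
          rintro ⟨-, -, rfl⟩
          exact h2 rfl
        · rw [if_neg h3]
    rw [map_sum, map_sum, map_sum, Finset.sum_congr rfl fun b₁ _ => h1 b₁]
    simp
  -- the bilinear algorithm
  let T : Type := {n // S.lab n = Label.mul} × Bool
  let fst : T → N := fun t => if t.2 then S.rgt t.1 else S.lft t.1
  let snd : T → N := fun t => if t.2 then S.lft t.1 else S.rgt t.1
  have hcardT : Fintype.card T = 2 * M := by
    rw [← hMul, Fintype.card_prod, Fintype.card_bool, Nat.card_eq_fintype_card, mul_comm]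
  rw [← hcardT]
  refine core_perm (F := F) hs hperf π₁ hne (Ω := T)
    (fun t i j => L (fst t) (Sum.inl (Sum.inl i, Sum.inr j)))
    (fun t j k => L (snd t) (Sum.inr (Sum.inr j, Sum.inr k)))
    (fun t k i => D (out (Sum.inl i) (Sum.inr k)) t.1) ?_ ?_
  · intro i j j' k k' i'
    have h1 := hD (out (Sum.inl i') (Sum.inr k')) (Sum.inl (Sum.inl i, Sum.inr j))
      (Sum.inr (Sum.inr j', Sum.inr k)) (by simp)
    rw [hHout] at h1
    have h2 : (if (Sum.inl i : Ixs u₁ m₁) = Sum.inl i' ∧ (Sum.inr j : Ixs u₂ m₂) = Sum.inr j' ∧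
        (Sum.inr k : Ixs u₃ m₃) = Sum.inr k' then (1 : F) else 0) =
        if i = i' ∧ j = j' ∧ k = k' then 1 else 0 := by
      simp
    rw [← h2, h1, Fintype.sum_prod_type]
    have h3 : ∑ t, D (out (Sum.inl i') (Sum.inr k')) t *
        (L (S.lft t) (Sum.inl (Sum.inl i, Sum.inr j)) *
            L (S.rgt t) (Sum.inr (Sum.inr j', Sum.inr k)) +
          L (S.rgt t) (Sum.inl (Sum.inl i, Sum.inr j)) *
            L (S.lft t) (Sum.inr (Sum.inr j', Sum.inr k))) =
        ∑ t : {n // S.lab n = Label.mul}, D (out (Sum.inl i') (Sum.inr k')) t *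
        (L (S.lft t) (Sum.inl (Sum.inl i, Sum.inr j)) *
            L (S.rgt t) (Sum.inr (Sum.inr j', Sum.inr k)) +
          L (S.rgt t) (Sum.inl (Sum.inl i, Sum.inr j)) *
            L (S.lft t) (Sum.inr (Sum.inr j', Sum.inr k))) := by
      rw [← Finset.sum_filter_of_ne (s := univ) (p := fun t => S.lab t = Label.mul)]
      · rw [Finset.sum_subtype (univ.filter fun t => S.lab t = Label.mul)
          (p := fun t => S.lab t = Label.mul) (by simp)]
      · intro t _ ht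
        by_contra hc
        apply ht
        rw [hD0 _ _ hc, zero_mul]
    rw [h3]
    refine Finset.sum_congr rfl fun t _ => ?_
    rw [Fintype.sum_bool]
    simp only [fst, snd, if_true, Bool.false_eq_true, if_false]
    ring
  · intro g
    obtain ⟨σ, hσ, hσo⟩ := hsym g
    obtain ⟨hσc, hσL⟩ := hE _ F N S _ c L H hjet _ σ (actV_inj _ _ _) hσ
    have hσD := hDe _ σ hσ hσc
    have hmul : ∀ n, S.lab n = Label.mul ↔ S.lab (σ n) = Label.mul := by
      intro n
      rw [hσ.1 n]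
      cases S.lab n <;> simp [Label.ren]
    let τ : Equiv.Perm {n // S.lab n = Label.mul} := σ.subtypeEquiv hmul
    let sw : {n // S.lab n = Label.mul} → Bool := fun t =>
      if S.lft (σ t) = σ (S.lft t) ∧ S.rgt (σ t) = σ (S.rgt t) then false else true
    let θ : Equiv.Perm T :=
      { toFun := fun t => (τ t.1, xor t.2 (sw t.1))
        invFun := fun t => (τ.symm t.1, xor t.2 (sw (τ.symm t.1)))
        left_inv := by
          rintro ⟨t, b⟩
          simp
        right_inv := by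
          rintro ⟨t, b⟩
          simp }
    have hfs : ∀ t : T, fst (θ t) = σ (fst t) ∧ snd (θ t) = σ (snd t) := by
      rintro ⟨⟨t, ht⟩, b⟩
      have e1 : (θ (⟨t, ht⟩, b)).1.1 = σ t := rfl
      have e2 : (θ (⟨t, ht⟩, b)).2 = xor b (sw ⟨t, ht⟩) := rfl
      simp only [fst, snd, e1, e2]
      by_cases h : S.lft (σ t) = σ (S.lft t) ∧ S.rgt (σ t) = σ (S.rgt t)
      · have hsw : sw ⟨t, ht⟩ = false := if_pos h
        rw [hsw, Bool.xor_false]
        cases b <;> simp [h.1, h.2]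
      · have hsw : sw ⟨t, ht⟩ = true := if_neg h
        have h' := (hσ.2.2 t ht).resolve_left h
        rw [hsw, Bool.xor_true]
        cases b <;> simp [h'.1, h'.2]
    refine ⟨θ, fun t => ⟨fun i j => ?_, fun j k => ?_, fun k i => ?_⟩⟩
    · rw [(hfs t).1]
      exact hσL (fst t) (Sum.inl (Sum.inl i, Sum.inr j))
    · rw [(hfs t).2]
      exact hσL (snd t) (Sum.inr (Sum.inr j, Sum.inr k))
    · have e1 : ((θ t).1 : N) = σ t.1 := rfl
      rw [e1]
      have e2 := hσo (Sum.inl i) (Sum.inr k)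
      have e3 : out (Sum.inl (π₁ g i)) (Sum.inr k) = σ (out (Sum.inl i) (Sum.inr k)) := e2.symm
      rw [e3]
      exact hσD _ _

end Pool.Agent.N580.SY
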