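import Mathlib

/-!
# Symmetric algorithms for matrix multiplication: the one-sided core
-/

set_option autoImplicit false

namespace Pool.Agent.N580.SY

open Finset Polynomial

/-- primitive solution of a small system of linear equations over `F[X]` -/
theorem primitive_kernel {F : Type} [Field F] {ι L : Type} [Fintype ι] [Fintype L]
    (b : L → ι → F[X]) (h : Fintype.card L < Fintype.card ι) :
    ∃ Y : ι → F[X], (∀ t, ∑ i, b t i * Y i = 0) ∧ ∃ i, ¬ (X : F[X]) ∣ Y i := by
  classical
  let f : (ι → F[X]) →ₗ[F[X]] (L → F[X]) := Matrix.toLin' (Matrix.of b)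
  have hf : ∀ Y t, f Y t = ∑ i, b t i * Y i := by
    intro Y t
    simp [f, Matrix.toLin'_apply, Matrix.mulVec, dotProduct]
  have hni : ¬ Function.Injective f := fun hi => by
    have := card_le_of_injective F[X] f hi
    omega
  have hex : ∃ Y : ι → F[X], Y ≠ 0 ∧ f Y = 0 := by
    by_contra hcon
    push Not at hcon
    apply hni
    rw [injective_iff_map_eq_zero]
    intro Y hY
    by_contra hne
    exact hcon Y hne hY
  -- minimal degree
  let P : ℕ → Prop := fun d => ∃ Y : ι → F[X], Y ≠ 0 ∧ f Y = 0 ∧ ∑ i, (Y i).natDegree = d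
  have hP : ∃ d, P d := by
    obtain ⟨Y, h1, h2⟩ := hex
    exact ⟨_, Y, h1, h2, rfl⟩
  obtain ⟨Y, h1, h2, h3⟩ := Nat.find_spec hP
  refine ⟨Y, fun t => by rw [← hf, h2]; rfl, ?_⟩
  by_contra hcon
  push Not at hcon
  choose Z hZ using hcon
  have hY : Y = fun i => X * Z i := funext hZ
  have hZ0 : Z ≠ 0 := by
    rintro rfl
    apply h1
    rw [hY]
    funext i
    simp
  have hfZ : f Z = 0 := by
    funext t
    have h4 : f Y t = 0 := by rw [h2]; rfl
    rw [hf, hY] at h4
    have h5 : ∑ i, b t i * (X * Z i) = X * ∑ i, b t i * Z i := by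
      rw [Finset.mul_sum]
      exact Finset.sum_congr rfl fun i _ => by ring
    rw [h5] at h4
    rw [hf]
    exact (mul_eq_zero.1 h4).resolve_left X_ne_zero
  have hdeg : ∀ i, (Z i).natDegree ≤ (Y i).natDegree := by
    intro i
    rw [hZ i]
    by_cases h0 : Z i = 0
    · simp [h0]
    · rw [natDegree_X_mul h0]
      omega
  obtain ⟨i, hi⟩ : ∃ i, Z i ≠ 0 := by
    by_contra hc
    push Not at hc
    exact hZ0 (funext hc)
  have hlt : (Z i).natDegree < (Y i).natDegree := by
    rw [hZ i, natDegree_X_mul hi]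
    omega
  have hsum : ∑ i, (Z i).natDegree < ∑ i, (Y i).natDegree :=
    Finset.sum_lt_sum (fun i _ => hdeg i) ⟨i, Finset.mem_univ i, hlt⟩
  have := Nat.find_min' hP ⟨Z, hZ0, hfZ, rfl⟩
  omega

/-- an invariant product of two linear forms is fixed, if the group is perfect -/
theorem fixed_of_perfect {F : Type} [Field F] {Γ : Type} [Group Γ] (hperf : commutator Γ = ⊤)
    {V W : Type} [AddCommGroup V] [Module F V] [AddCommGroup W] [Module F W]
    (A : Γ → V → V) (B : Γ → W → W) (hA1 : ∀ x, A 1 x = x)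
    (hA : ∀ g h x, A (g * h) x = A g (A h x)) (hB1 : ∀ z, B 1 z = z)
    (α : V → F[X]) (γ : W → F[X]) (z₀ : W) (hz₀ : γ z₀ ≠ 0)
    (hinv : ∀ g x z, α (A g x) * γ (B g z) = α x * γ z) (g : Γ) (x : V) : α (A g x) = α x := by
  classical
  by_cases hα : ∀ x, α x = 0
  · rw [hα, hα]
  · push Not at hα
    obtain ⟨x₀, hx₀⟩ := hα
    let φ := algebraMap F[X] (FractionRing F[X])
    have hφ : Function.Injective φ := IsFractionRing.injective _ _
    have hφ0 : ∀ p, p ≠ 0 → φ p ≠ 0 := fun p hp h => hp (hφ (by rw [h, map_zero]))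
    -- the character
    have hc : ∀ g x, φ (α (A g x)) = φ (α (A g x₀)) / φ (α x₀) * φ (α x) := by
      intro g x
      have e1 := hinv g x z₀
      have e2 := hinv g x₀ z₀
      have hB : γ (B g z₀) ≠ 0 := by
        intro h0
        rw [h0, mul_zero] at e2
        exact mul_ne_zero hx₀ hz₀ e2.symm
      have e3 : α (A g x) * α x₀ = α (A g x₀) * α x := by
        have : (α (A g x) * α x₀) * (γ (B g z₀) * γ z₀) =
            (α (A g x₀) * α x) * (γ (B g z₀) * γ z₀) := by
          calc (α (A g x) * α x₀) * (γ (B g z₀) * γ z₀)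
              = (α (A g x) * γ (B g z₀)) * (α x₀ * γ z₀) := by ring
            _ = (α x * γ z₀) * (α (A g x₀) * γ (B g z₀)) := by rw [e1, e2]
            _ = (α (A g x₀) * α x) * (γ (B g z₀) * γ z₀) := by ring
        exact mul_right_cancel₀ (mul_ne_zero hB hz₀) this
      have e4 : φ (α (A g x)) * φ (α x₀) = φ (α (A g x₀)) * φ (α x) := by
        rw [← map_mul, ← map_mul, e3]
      have h0 := hφ0 _ hx₀
      field_simp
      exact e4
    let χ : Γ → FractionRing F[X] := fun g => φ (α (A g x₀)) / φ (α x₀)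
    have hχ1 : χ 1 = 1 := by
      change φ (α (A 1 x₀)) / φ (α x₀) = 1
      rw [hA1, div_self (hφ0 _ hx₀)]
    have hχm : ∀ g h, χ (g * h) = χ g * χ h := by
      intro g h
      change φ (α (A (g * h) x₀)) / φ (α x₀) = χ g * (φ (α (A h x₀)) / φ (α x₀))
      rw [hA, hc g]
      ring
    let f : Γ →* FractionRing F[X] := ⟨⟨χ, hχ1⟩, hχm⟩
    have hker : f.toHomUnits.ker = ⊤ := by
      rw [eq_top_iff, ← hperf]
      exact Abelianization.commutator_subset_ker f.toHomUnits
    have hg : f.toHomUnits g = 1 := by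
      rw [← MonoidHom.mem_ker, hker]
      exact Subgroup.mem_top g
    have hg' : χ g = 1 := by
      have h9 : f g = 1 := by
        have := congrArg Units.val hg
        simpa using this
      exact h9
    apply hφ
    rw [hc g x]
    change χ g * φ (α x) = φ (α x)
    rw [hg', one_mul]

/-- the trilinear functions -/
abbrev Tri (F : Type) [Field F] (u m n : ℕ) : Type :=
  Matrix (Fin u) (Fin m) F → Matrix (Fin m) (Fin n) F → Matrix (Fin n) (Fin u) F → F[X]

/-- the one-sided theorem -/
theorem core {F : Type} [Field F] {Γ : Type} [Group Γ] [Finite Γ] {s : ℕ}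
    (hs : ∀ H : Subgroup Γ, H ≠ ⊤ → s ≤ H.index) (hperf : commutator Γ = ⊤) {u m n : ℕ}
    (ρ : Γ → Matrix (Fin u) (Fin u) F) (h1 : ρ 1 = 1) (hmul : ∀ g h, ρ (g * h) = ρ g * ρ h)
    (hne : ∃ g, ρ g ≠ 1) {Ω : Type} [Fintype Ω]
    (α : Ω → Matrix (Fin u) (Fin m) F →ₗ[F] F[X]) (β : Ω → Matrix (Fin m) (Fin n) F →ₗ[F] F[X])
    (γ : Ω → Matrix (Fin n) (Fin u) F →ₗ[F] F[X]) (q : ℕ)
    (hT : ∀ x y z, X ^ (q + 1) ∣
      ∑ t, α t x * β t y * γ t z - C (Matrix.trace (x * y * z)) * X ^ q)
    (hinv : ∀ g, ∃ σ : Equiv.Perm Ω, ∀ t x y z,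
      α (σ t) (ρ g * x) * β (σ t) y * γ (σ t) (z * ρ g⁻¹) = α t x * β t y * γ t z) :
    s * (m * n) ≤ Fintype.card Ω := by
  classical
  by_contra hcon
  push Not at hcon
  have hinvl : ∀ g, ρ g⁻¹ * ρ g = 1 := fun g => by rw [← hmul, inv_mul_cancel, h1]
  have hinvr : ∀ g, ρ g * ρ g⁻¹ = 1 := fun g => by rw [← hmul, mul_inv_cancel, h1]
  -- the action on trilinear functions
  let act : MulAction Γ (Tri F u m n) :=
    { smul := fun g τ x y z => τ (ρ g⁻¹ * x) y (z * ρ g)
      one_smul := by
        intro τ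
        funext x y z
        change τ (ρ 1⁻¹ * x) y (z * ρ 1) = τ x y z
        rw [inv_one, h1, Matrix.one_mul, Matrix.mul_one]
      mul_smul := by
        intro g h τ
        funext x y z
        change τ (ρ (g * h)⁻¹ * x) y (z * ρ (g * h)) =
          τ (ρ h⁻¹ * (ρ g⁻¹ * x)) y (z * ρ g * ρ h)
        rw [mul_inv_rev, hmul, hmul, Matrix.mul_assoc, Matrix.mul_assoc] }
  have hsm : ∀ (g : Γ) (τ : Tri F u m n) x y z, (g • τ) x y z = τ (ρ g⁻¹ * x) y (z * ρ g) :=
    fun _ _ _ _ _ => rfl
  let τ : Ω → Tri F u m n := fun t x y z => α t x * β t y * γ t z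
  have hτ : ∀ (g : Γ) (t : Ω), ∃ t', τ t' = g • τ t := by
    intro g t
    obtain ⟨σ, hσ⟩ := hinv g
    refine ⟨σ t, ?_⟩
    funext x y z
    rw [hsm]
    change α (σ t) x * β (σ t) y * γ (σ t) z =
      α t (ρ g⁻¹ * x) * β t y * γ t (z * ρ g)
    rw [← hσ t, ← Matrix.mul_assoc, hinvr, Matrix.one_mul, Matrix.mul_assoc, hinvr,
      Matrix.mul_one]
  -- coefficients of `β`
  let b : Ω → Fin m × Fin n → F[X] := fun t i => β t (Matrix.single i.1 i.2 1)
  have hb : ∀ t y, β t y = ∑ i, b t i * C (y i.1 i.2) := by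
    intro t y
    conv_lhs => rw [Matrix.matrix_eq_sum_single y]
    rw [map_sum, Fintype.sum_prod_type]
    refine Finset.sum_congr rfl fun j _ => ?_
    rw [map_sum]
    refine Finset.sum_congr rfl fun k _ => ?_
    change β t (Matrix.single j k (y j k)) = β t (Matrix.single j k 1) * C (y j k)
    have h2 : Matrix.single j k (y j k) = (y j k) • Matrix.single j k (1 : F) := by
      rw [Matrix.smul_single, smul_eq_mul, mul_one]
    rw [h2, map_smul, smul_eq_C_mul, mul_comm]
  let κ : Ω → Set (Fin m × Fin n → F[X]) := fun t => {Y | ∑ i, b t i * Y i = 0}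
  -- the nonfixed terms
  let N : Ω → Prop := fun t => ∃ g : Γ, g • τ t ≠ τ t
  -- classes of nonfixed terms are large
  have hclass : ∀ t, N t → s ≤ (univ.filter fun t' => κ t' = κ t).card := by
    intro t ht
    have hstab : MulAction.stabilizer Γ (τ t) ≠ ⊤ := by
      intro h
      obtain ⟨g, hg⟩ := ht
      have : g ∈ MulAction.stabilizer Γ (τ t) := by rw [h]; exact Subgroup.mem_top g
      exact hg this
    have hidx := hs _ hstab
    rw [MulAction.index_stabilizer] at hidx
    refine hidx.trans ?_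
    -- choose representatives
    have hrep : ∀ f ∈ MulAction.orbit Γ (τ t), ∃ t', τ t' = f := by
      rintro f ⟨g, rfl⟩
      exact hτ g t
    have hne0 : τ t ≠ 0 := by
      intro h0
      obtain ⟨g, hg⟩ := ht
      apply hg
      rw [h0]
      rfl
    have hsub : MulAction.orbit Γ (τ t) ⊆
        ((univ.filter fun t' => κ t' = κ t).image τ : Finset (Tri F u m n)) := by
      rintro f ⟨g, rfl⟩
      obtain ⟨t', ht'⟩ := hτ g t
      rw [Finset.coe_image]
      refine ⟨t', ?_, ht'⟩
      rw [Finset.coe_filter]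
      refine ⟨Finset.mem_univ _, ?_⟩
      -- proportional coefficients
      obtain ⟨x, y, z, hxyz⟩ : ∃ x y z, τ t x y z ≠ 0 := by
        by_contra hc
        push Not at hc
        exact hne0 (funext fun x => funext fun y => funext fun z => hc x y z)
      have hxyz' : α t x * β t y * γ t z ≠ 0 := hxyz
      have hαγ : α t x * γ t z ≠ 0 := by
        intro h0
        apply hxyz'
        rw [mul_right_comm, h0, zero_mul]
      have heq : ∀ y', α t' (ρ g * x) * γ t' (z * ρ g⁻¹) * β t' y' =
          α t x * γ t z * β t y' := by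
        intro y'
        have h3 := congrFun (congrFun (congrFun ht' (ρ g * x)) y') (z * ρ g⁻¹)
        have h4 : α t' (ρ g * x) * β t' y' * γ t' (z * ρ g⁻¹) =
            α t (ρ g⁻¹ * (ρ g * x)) * β t y' * γ t (z * ρ g⁻¹ * ρ g) := h3
        rw [← Matrix.mul_assoc, hinvl, Matrix.one_mul, Matrix.mul_assoc, hinvl,
          Matrix.mul_one] at h4
        calc α t' (ρ g * x) * γ t' (z * ρ g⁻¹) * β t' y'
            = α t' (ρ g * x) * β t' y' * γ t' (z * ρ g⁻¹) := by ring
          _ = α t x * β t y' * γ t z := h4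
          _ = α t x * γ t z * β t y' := by ring
      have hαγ' : α t' (ρ g * x) * γ t' (z * ρ g⁻¹) ≠ 0 := by
        intro h0
        have h5 := heq y
        rw [h0, zero_mul] at h5
        apply hxyz'
        rw [mul_right_comm, ← h5]
      ext Y
      have h6 : (α t' (ρ g * x) * γ t' (z * ρ g⁻¹)) * ∑ i, b t' i * Y i =
          (α t x * γ t z) * ∑ i, b t i * Y i := by
        rw [Finset.mul_sum, Finset.mul_sum]
        refine Finset.sum_congr rfl fun i _ => ?_
        rw [← mul_assoc, ← mul_assoc]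
        congr 1
        exact heq _
      change ∑ i, b t' i * Y i = 0 ↔ ∑ i, b t i * Y i = 0
      constructor
      · intro h7
        rw [h7, mul_zero] at h6
        exact (mul_eq_zero.1 h6.symm).resolve_left hαγ
      · intro h7
        rw [h7, mul_zero] at h6
        exact (mul_eq_zero.1 h6).resolve_left hαγ'
    have h8 := Set.ncard_le_ncard hsub (Finset.finite_toSet _)
    rw [Set.ncard_coe_finset] at h8
    exact h8.trans Finset.card_image_le
  -- the number of classes
  let S : Finset (Set (Fin m × Fin n → F[X])) := (univ.filter N).image κ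
  have hScard : S.card * s ≤ Fintype.card Ω := by
    have h2 : ∀ c ∈ S, s ≤ (univ.filter fun t' => κ t' = c).card := by
      intro c hc
      obtain ⟨t, ht, rfl⟩ := Finset.mem_image.1 hc
      exact hclass t (Finset.mem_filter.1 ht).2
    calc S.card * s = ∑ _c ∈ S, s := by rw [Finset.sum_const, smul_eq_mul]
      _ ≤ ∑ c ∈ S, (univ.filter fun t' => κ t' = c).card := Finset.sum_le_sum h2
      _ = ∑ c ∈ S, ((univ.filter fun t' => κ t' ∈ S).filter fun t' => κ t' = c).card := by
          refine Finset.sum_congr rfl fun c hc => ?_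
          congr 1
          ext t'
          simp only [Finset.mem_filter, Finset.mem_univ, true_and]
          constructor
          · rintro rfl
            exact ⟨hc, rfl⟩
          · exact fun h => h.2
      _ = (univ.filter fun t' => κ t' ∈ S).card :=
          (Finset.card_eq_sum_card_fiberwise fun t ht => (Finset.mem_filter.1 ht).2).symm
      _ ≤ Fintype.card Ω := Finset.card_le_univ _
  have hSlt : S.card < m * n := by
    by_contra h9
    push Not at h9
    have : s * (m * n) ≤ S.card * s := by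
      rw [mul_comm]
      exact Nat.mul_le_mul_right s h9
    omega
  -- representatives of the classes
  have hr : ∀ c : S, ∃ t, κ t = c.1 := by
    rintro ⟨c, hc⟩
    obtain ⟨t, -, ht⟩ := Finset.mem_image.1 hc
    exact ⟨t, ht⟩
  choose rep hrep using hr
  obtain ⟨Y, hY, ⟨j₀, k₀⟩, hY0⟩ := primitive_kernel (ι := Fin m × Fin n) (L := S)
    (fun c => b (rep c)) (by simpa using hSlt)
  have hYN : ∀ t, N t → ∑ i, b t i * Y i = 0 := by
    intro t ht
    have hmem : κ t ∈ S := Finset.mem_image_of_mem κ (Finset.mem_filter.2 ⟨Finset.mem_univ _, ht⟩)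
    have h3 : Y ∈ κ (rep ⟨κ t, hmem⟩) := hY ⟨κ t, hmem⟩
    rw [hrep ⟨κ t, hmem⟩] at h3
    exact h3
  -- the fixed terms
  have hfix : ∀ t, ¬ N t → ∀ (g : Γ) (x : Matrix (Fin u) (Fin m) F) (y : Matrix (Fin m) (Fin n) F)
      (z : Matrix (Fin n) (Fin u) F), α t (ρ g * x - x) * β t y * γ t z = 0 := by
    intro t ht g x y z
    by_cases hy : β t y = 0
    · rw [hy, mul_zero, zero_mul]
    by_cases hz : γ t z = 0
    · rw [hz, mul_zero]
    have hfx : ∀ (g : Γ) (x : Matrix (Fin u) (Fin m) F) (z : Matrix (Fin n) (Fin u) F),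
        α t (ρ g * x) * γ t (z * ρ g⁻¹) = α t x * γ t z := by
      intro g x z
      have h3 : g • τ t = τ t := by
        by_contra hc
        exact ht ⟨g, hc⟩
      have h4 := congrFun (congrFun (congrFun h3 (ρ g * x)) y) (z * ρ g⁻¹)
      rw [hsm] at h4
      have h5 : α t (ρ g⁻¹ * (ρ g * x)) * β t y * γ t (z * ρ g⁻¹ * ρ g) =
          α t (ρ g * x) * β t y * γ t (z * ρ g⁻¹) := h4
      rw [← Matrix.mul_assoc, hinvl, Matrix.one_mul, Matrix.mul_assoc, hinvl,
        Matrix.mul_one] at h5
      refine mul_right_cancel₀ hy ?_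
      linear_combination -h5
    have h6 := fixed_of_perfect hperf (fun g x => ρ g * x) (fun g z => z * ρ g⁻¹)
      (fun x => by simp [h1]) (fun g h x => by simp [hmul, Matrix.mul_assoc])
      (fun z => by simp [h1]) (fun x => α t x) (fun z => γ t z) z hz hfx g x
    have h7 : α t (ρ g * x - x) = 0 := by
      rw [map_sub]
      exact sub_eq_zero.2 h6
    rw [h7, zero_mul, zero_mul]
  -- the final test
  obtain ⟨g, hg⟩ := hne
  obtain ⟨i₀, i₁, hi⟩ : ∃ i₀ i₁, (ρ g - 1) i₀ i₁ ≠ 0 := by
    by_contra hc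
    push Not at hc
    apply hg
    rw [← sub_eq_zero]
    ext i j
    exact hc i j
  set x₀ : Matrix (Fin u) (Fin m) F := Matrix.single i₁ j₀ 1 with hx₀
  set z₀ : Matrix (Fin n) (Fin u) F := Matrix.single k₀ i₀ 1 with hz₀
  set x : Matrix (Fin u) (Fin m) F := ρ g * x₀ - x₀ with hx
  have hx' : x = (ρ g - 1) * x₀ := by rw [hx, Matrix.sub_mul, Matrix.one_mul]
  have hzero : ∀ t, α t x * (∑ i, b t i * Y i) * γ t z₀ = 0 := by
    intro t
    by_cases ht : N t
    · rw [hYN t ht, mul_zero, zero_mul]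
    · rw [Finset.mul_sum, Finset.sum_mul]
      refine Finset.sum_eq_zero fun i _ => ?_
      have h3 := hfix t ht g x₀ (Matrix.single i.1 i.2 1) z₀
      calc α t x * (b t i * Y i) * γ t z₀
          = (α t (ρ g * x₀ - x₀) * β t (Matrix.single i.1 i.2 1) * γ t z₀) * Y i := by
            change α t x * (β t (Matrix.single i.1 i.2 1) * Y i) * γ t z₀ = _
            rw [hx]
            ring
        _ = 0 := by rw [h3, zero_mul]
  have htr : ∀ i : Fin m × Fin n, Matrix.trace (x * Matrix.single i.1 i.2 (1 : F) * z₀) =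
      if i = (j₀, k₀) then (ρ g - 1) i₀ i₁ else 0 := by
    rintro ⟨j, k⟩
    have e1 : x * Matrix.single j k (1 : F) * z₀ =
        (ρ g - 1) * (Matrix.single i₁ j₀ (1 : F) *
          (Matrix.single j k (1 : F) * Matrix.single k₀ i₀ (1 : F))) := by
      simp only [hx', hx₀, hz₀, Matrix.mul_assoc]
    change Matrix.trace (x * Matrix.single j k (1 : F) * z₀) = _
    rw [e1]
    by_cases hk : k = k₀
    · by_cases hj : j = j₀
      · subst hj
        subst hk
        rw [if_pos rfl, Matrix.single_mul_single_same, Matrix.single_mul_single_same,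
          Matrix.trace_mul_single]
        simp
      · rw [if_neg (fun h => hj (congrArg Prod.fst h)), hk, Matrix.single_mul_single_same,
          Matrix.single_mul_single_of_ne _ _ _ _ (Ne.symm hj), Matrix.mul_zero, Matrix.trace_zero]
    · rw [if_neg (fun h => hk (congrArg Prod.snd h)),
        Matrix.single_mul_single_of_ne _ _ _ _ hk, Matrix.mul_zero, Matrix.mul_zero,
        Matrix.trace_zero]
  have hdvd : ∀ i : Fin m × Fin n, (X : F[X]) ^ (q + 1) ∣
      (∑ t, α t x * b t i * γ t z₀ - C (if i = (j₀, k₀) then (ρ g - 1) i₀ i₁ else 0) * X ^ q) := by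
    intro i
    have h3 := hT x (Matrix.single i.1 i.2 1) z₀
    rw [htr] at h3
    exact h3
  have hsum : X ^ (q + 1) ∣ ∑ i, (∑ t, α t x * b t i * γ t z₀ -
      C (if i = (j₀, k₀) then (ρ g - 1) i₀ i₁ else 0) * X ^ q) * Y i :=
    Finset.dvd_sum fun i _ => Dvd.dvd.mul_right (hdvd i) _
  have hfin : ∑ i, (∑ t, α t x * b t i * γ t z₀ -
      C (if i = (j₀, k₀) then (ρ g - 1) i₀ i₁ else 0) * X ^ q) * Y i =
      - (C ((ρ g - 1) i₀ i₁) * X ^ q * Y (j₀, k₀)) := by
    have h3 : ∑ i, (∑ t, α t x * b t i * γ t z₀) * Y i = 0 := by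
      calc ∑ i, (∑ t, α t x * b t i * γ t z₀) * Y i
          = ∑ i, ∑ t, α t x * (b t i * Y i) * γ t z₀ := by
            refine Finset.sum_congr rfl fun i _ => ?_
            rw [Finset.sum_mul]
            exact Finset.sum_congr rfl fun t _ => by ring
        _ = ∑ t, α t x * (∑ i, b t i * Y i) * γ t z₀ := by
            rw [Finset.sum_comm]
            refine Finset.sum_congr rfl fun t _ => ?_
            rw [Finset.mul_sum, Finset.sum_mul]
        _ = 0 := Finset.sum_eq_zero fun t _ => hzero t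
    have h4 : ∑ i, (C (if i = (j₀, k₀) then (ρ g - 1) i₀ i₁ else 0) * X ^ q) * Y i =
        C ((ρ g - 1) i₀ i₁) * X ^ q * Y (j₀, k₀) := by
      rw [Finset.sum_eq_single (j₀, k₀)]
      · rw [if_pos rfl]
      · intro i _ hi
        rw [if_neg hi, C_0, zero_mul, zero_mul]
      · intro h
        exact absurd (Finset.mem_univ _) h
    calc _ = ∑ i, ((∑ t, α t x * b t i * γ t z₀) * Y i -
          (C (if i = (j₀, k₀) then (ρ g - 1) i₀ i₁ else 0) * X ^ q) * Y i) :=
          Finset.sum_congr rfl fun i _ => by ring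
      _ = _ := by rw [Finset.sum_sub_distrib, h3, h4, zero_sub]
  rw [hfin, dvd_neg, pow_succ] at hsum
  apply hY0
  have h5 : X ^ q * X ∣ X ^ q * (C ((ρ g - 1) i₀ i₁) * Y (j₀, k₀)) := by
    refine hsum.trans (dvd_of_eq ?_)
    ring
  have h6 : X ∣ C ((ρ g - 1) i₀ i₁) * Y (j₀, k₀) :=
    (mul_dvd_mul_iff_left (pow_ne_zero q X_ne_zero)).1 h5
  have hu : IsUnit (C ((ρ g - 1) i₀ i₁)) := isUnit_C.2 (isUnit_iff_ne_zero.2 hi)
  exact (hu.dvd_mul_left).1 h6

end Pool.Agent.N580.SY
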